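import Mathlib

namespace Pool.Agent.Results.MP_e5500d_nt.Yes

open Nat Finset

/-- `S_n = ∑_{k=0}^{n-3} (-1)^k C(2k,k) C(n-3,k) C(k,n-3-k)`, empty for `n ≤ 2`. -/
def S (n : ℕ) : ℤ := ∑ k ∈ range (n - 2),
  (-1) ^ k * ((2 * k).choose k : ℤ) * ((n - 3).choose k : ℤ) * (k.choose (n - 3 - k) : ℤ)

def T (m : ℕ) : ℤ := S (m + 2) + 12 * S (m + 1) + 16 * S m

def A (N : ℕ) : ℚ := ∑ k ∈ Icc 1 N, (-1) ^ k * (T k : ℚ) / k

def iv (x : ℤ) : ℚ := if 0 ≤ x then 1 / (x.toNat ! : ℚ) else 0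

lemma iv_nat (m : ℕ) : iv m = 1 / (m ! : ℚ) := by simp [iv]
lemma iv_neg {x : ℤ} (h : x < 0) : iv x = 0 := by simp [iv, not_le.2 h]

lemma iv_succ (x : ℤ) : iv x = (x + 1) * iv (x + 1) := by
  rcases lt_trichotomy x (-1) with h | h | h
  · rw [iv_neg (by omega), iv_neg (by omega)]; simp
  · subst h; rw [iv_neg (by omega)]; simp
  · obtain ⟨m, rfl⟩ := Int.eq_ofNat_of_zero_le (show 0 ≤ x by omega)
    have : ((m : ℤ) + 1) = ((m + 1 : ℕ) : ℤ) := by push_cast; rfl
    rw [this, iv_nat, iv_nat, factorial_succ]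
    push_cast
    field_simp

lemma choose_iv (a b : ℕ) : (a.choose b : ℚ) = a ! * iv b * iv ((a : ℤ) - b) := by
  rcases le_or_gt b a with h | h
  · obtain ⟨c, rfl⟩ := Nat.exists_eq_add_of_le h
    have : ((b + c : ℕ) : ℤ) - b = c := by push_cast; ring
    rw [this, iv_nat, iv_nat, Nat.cast_choose ℚ h, Nat.add_sub_cancel_left]
    field_simp
  · rw [Nat.choose_eq_zero_of_lt h, iv_neg (x := (a : ℤ) - b) (by omega)]; simp

def cz (x : ℤ) : ℚ := if 0 ≤ x then (centralBinom x.toNat : ℚ) else 0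

lemma cz_nat (m : ℕ) : cz m = centralBinom m := by simp [cz]

lemma odd_ne (x : ℤ) : (2 * (x : ℚ) + 1) ≠ 0 := by
  have : (2 * x + 1 : ℤ) ≠ 0 := by omega
  exact_mod_cast this

lemma cz_succ (x : ℤ) : cz x = (x + 1) * cz (x + 1) / (2 * (2 * x + 1)) := by
  have h0 := odd_ne x
  rcases lt_trichotomy x (-1) with h | h | h
  · simp [cz, show ¬ 0 ≤ x by omega, show ¬ 0 ≤ x + 1 by omega]
  · subst h; simp [cz]
  · obtain ⟨m, rfl⟩ := Int.eq_ofNat_of_zero_le (show 0 ≤ x by omega)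
    have : ((m : ℤ) + 1) = ((m + 1 : ℕ) : ℤ) := by push_cast; rfl
    rw [this, cz_nat, cz_nat]
    have h := Nat.succ_mul_centralBinom_succ m
    have h' : ((m : ℚ) + 1) * centralBinom (m + 1) = 2 * (2 * m + 1) * centralBinom m := by
      exact_mod_cast h
    push_cast at h0 ⊢
    rw [h']
    field_simp

def K (x : ℤ) : ℚ := cz (x + 1) / (2 * (2 * x + 1))

lemma K_nat (m : ℕ) : K m = catalan m := by
  have h := succ_mul_catalan_eq_centralBinom m
  have h' : ((m : ℚ) + 1) * catalan m = centralBinom m := by exact_mod_cast h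
  have h2 := cz_succ m
  rw [cz_nat, ← h'] at h2
  have h0 := odd_ne m
  unfold K
  push_cast at h0 h2 ⊢
  have : (m : ℚ) + 1 ≠ 0 := by positivity
  field_simp
  field_simp at h2
  linarith

def t (m j : ℕ) : ℚ := (-1) ^ j * cz ((m : ℤ) - j) * m ! * iv j ^ 2 * iv ((m : ℤ) - 2 * j)

def w (m j : ℕ) : ℚ := (-1) ^ j * m ! * iv ((m : ℤ) - 2 * j) * iv j * iv (j + 1) * K ((m : ℤ) - j)

def H (m j : ℕ) : ℚ := (-1) ^ j * m ! * iv j * iv ((j : ℤ) - 1) * iv ((m : ℤ) + 2 - 2 * j) *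
  K ((m : ℤ) + 1 - j) * (-6 * (m + 3) ^ 2 + 26 * (m + 3) - 12 * j + 8 * j ^ 2 - 24)

lemma wz (m j : ℕ) : (m + 3) * (2 * (m + 3) * w (m + 1) j - 2 * (m + 2) * w m j) -
    (- t (m + 2) j + 12 * t (m + 1) j - 16 * t m j) = H m (j + 1) - H m j := by
  unfold t w H K
  have a1 := iv_succ (j : ℤ)
  have a2 := iv_succ ((j : ℤ) - 1)
  have a3 := iv_succ ((m : ℤ) + 1 - 2 * j)
  have a4 := iv_succ ((m : ℤ) - 2 * j)
  have c1 := cz_succ ((m : ℤ) + 1 - j)
  have c2 := cz_succ ((m : ℤ) - j)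
  have o1 := odd_ne ((m : ℤ) + 1 - j)
  have o2 := odd_ne ((m : ℤ) - j)
  rw [show (j : ℤ) - 1 + 1 = j by ring] at a2
  rw [show (m : ℤ) + 1 - 2 * j + 1 = m + 2 - 2 * j by ring] at a3
  rw [show (m : ℤ) - 2 * j + 1 = m + 1 - 2 * j by ring] at a4
  rw [show (m : ℤ) + 1 - j + 1 = m + 2 - j by ring] at c1
  rw [show (m : ℤ) - j + 1 = m + 1 - j by ring] at c2
  push_cast
  rw [show (m : ℤ) + 1 - j + 1 = m + 2 - j by ring, show (m : ℤ) - j + 1 = m + 1 - j by ring,
    show (j : ℤ) + 1 - 1 = j by ring, show (m : ℤ) + 2 - 2 * (j + 1) = m - 2 * j by ring,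
    show (m : ℤ) + 1 - (j + 1) + 1 = m + 1 - j by ring, a2, a4, a3, c2, c1, a1,
    factorial_succ (m + 1), factorial_succ m]
  push_cast at o1 o2 ⊢
  rw [show (m : ℚ) + 1 - (j + 1) = m - j by ring]
  field_simp
  ring

lemma t_sum (m L : ℕ) (hL : m + 1 ≤ L) : ∑ j ∈ range L, t m j = (-1) ^ m * S (m + 3) := by
  induction L, hL using Nat.le_induction with
  | base =>
    unfold S
    rw [show m + 3 - 2 = m + 1 from rfl, show m + 3 - 3 = m from rfl]
    push_cast
    rw [← sum_range_reflect, mul_sum]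
    refine sum_congr rfl fun k hk => ?_
    obtain ⟨j, rfl⟩ : ∃ j, m = k + j := ⟨m - k, by have := mem_range.1 hk; omega⟩
    rw [show k + j + 1 - 1 - k = j by omega, show k + j - k = j by omega, choose_iv (k + j) k,
      choose_iv k j, ← centralBinom_eq_two_mul_choose, ← cz_nat]
    unfold t
    push_cast
    rw [show (k : ℤ) + j - j = k by ring, show (k : ℤ) + j - k = j by ring,
      show (k : ℤ) + j - 2 * j = k - j by ring, iv_nat k, pow_add]
    have : ((-1 : ℚ) ^ k) * (-1) ^ k = 1 := by rw [← mul_pow]; simp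
    field_simp
    rw [show ((-1 : ℚ) ^ k) ^ 2 = 1 by rw [sq, this]]
    ring
  | succ L hL ih =>
    rw [sum_range_succ, ih]
    unfold t
    rw [iv_neg (x := (m : ℤ) - 2 * L) (by omega)]
    simp

def W (m : ℕ) : ℤ := ∑ j ∈ range (m + 1),
  (-1) ^ j * (m.choose (2 * j) : ℤ) * (catalan j : ℤ) * (catalan (m - j) : ℤ)

lemma w_sum (m L : ℕ) (hL : m + 1 ≤ L) : ∑ j ∈ range L, w m j = W m := by
  induction L, hL using Nat.le_induction with
  | base =>
    unfold W
    push_cast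
    refine sum_congr rfl fun j hj => ?_
    obtain ⟨k, rfl⟩ : ∃ k, m = j + k := ⟨m - j, by have := mem_range.1 hj; omega⟩
    have h := succ_mul_catalan_eq_centralBinom j
    have h' : ((j : ℚ) + 1) * catalan j = (2 * j).choose j := by
      rw [← centralBinom_eq_two_mul_choose]; exact_mod_cast h
    rw [choose_iv] at h'
    rw [Nat.add_sub_cancel_left, choose_iv]
    unfold w
    have e : ((j : ℤ) + 1) = ((j + 1 : ℕ) : ℤ) := by push_cast; rfl
    have e2 : ((j + k : ℕ) : ℤ) - j = k := by push_cast; ring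
    have e3 : ((2 * j : ℕ) : ℤ) - j = j := by push_cast; ring
    rw [e3, iv_nat] at h'
    rw [e2, K_nat, e, iv_nat, iv_nat, iv_nat, factorial_succ]
    push_cast
    have : (catalan j : ℚ) = (2 * j)! * (1 / j !) * (1 / j !) / (j + 1) := by
      rw [← h']; field_simp
    rw [this]
    field_simp
  | succ L hL ih =>
    rw [sum_range_succ, ih]
    unfold w
    rw [iv_neg (x := (m : ℤ) - 2 * L) (by omega)]
    simp

lemma A_eq (m : ℕ) : A (m + 2) = 2 * (m + 2) * W m := by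
  induction m with
  | zero => simp [A, T, S, W, Finset.sum_Icc_succ_top, sum_range_succ, Nat.choose]; norm_num
  | succ m ih =>
    have h := sum_congr (rfl : range (m + 3) = range (m + 3)) fun j _ => wz m j
    rw [sum_range_sub (fun j => H m j), sum_sub_distrib, ← mul_sum, sum_sub_distrib, ← mul_sum,
      ← mul_sum, sum_sub_distrib, sum_add_distrib, sum_neg_distrib, ← mul_sum, ← mul_sum,
      w_sum _ _ (by omega), w_sum _ _ (by omega), t_sum _ _ (by omega), t_sum _ _ (by omega),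
      t_sum _ _ (by omega)] at h
    have h0 : H m 0 = 0 := by
      unfold H; rw [iv_neg (x := ((0 : ℕ) : ℤ) - 1) (by simp)]; simp
    have h1 : H m (m + 3) = 0 := by
      unfold H; rw [iv_neg (x := (m : ℤ) + 2 - 2 * ((m + 3 : ℕ) : ℤ)) (by push_cast; omega)]; simp
    rw [h0, h1] at h
    unfold A at ih ⊢
    rw [show m + 1 + 2 = m + 2 + 1 from rfl, Finset.sum_Icc_succ_top (by omega), ih]
    unfold T
    rw [show m + 2 + 1 + 2 = m + 2 + 3 from rfl, show m + 2 + 1 + 1 = m + 1 + 3 from rfl,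
      show m + 2 + 1 = m + 3 from rfl]
    push_cast
    have : (m : ℚ) + 3 ≠ 0 := by positivity
    field_simp
    linear_combination -h

lemma choose_pred (q : ℕ) (hp : (q + 1).Prime) (k : ℕ) (hk : k ≤ q) :
    ((q.choose k : ℕ) : ZMod (q + 1)) = (-1) ^ k := by
  induction k with
  | zero => simp
  | succ k ih =>
    have h := (ZMod.natCast_eq_zero_iff _ _).2 (hp.dvd_choose_self (k := k + 1) (by omega) (by omega))
    rw [Nat.choose_succ_succ, Nat.cast_add, ih (by omega)] at h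
    rw [pow_succ]
    linear_combination h

lemma W_mod (g : ℕ) (hp : (2 * g + 3).Prime) :
    ((W (2 * g + 1) : ℤ) : ZMod (2 * g + 3)) = (-1) ^ g := by
  unfold W
  push_cast
  rw [sum_eq_single g]
  · have h1 := succ_mul_catalan_eq_centralBinom (g + 1)
    have h2 := succ_mul_catalan_eq_centralBinom g
    have h3 := Nat.succ_mul_centralBinom_succ g
    have h4 : centralBinom (g + 1) = 2 * (2 * g + 1) * catalan g := by
      apply Nat.eq_of_mul_eq_mul_left (show 0 < g + 1 by omega)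
      rw [h3, ← h2]; ring
    have h5 := choose_pred (2 * g + 2) hp (g + 1) (by omega)
    rw [show 2 * g + 2 = 2 * (g + 1) by ring, ← centralBinom_eq_two_mul_choose] at h5
    have h5' : ((centralBinom (g + 1) : ℕ) : ZMod (2 * g + 3)) = (-1) ^ (g + 1) := h5
    have h1' := congrArg (Nat.cast : ℕ → ZMod (2 * g + 3)) h1
    have h4' := congrArg (Nat.cast : ℕ → ZMod (2 * g + 3)) h4
    have h6 : ((2 * g + 3 : ℕ) : ZMod (2 * g + 3)) = 0 := ZMod.natCast_self _
    have h7 : ((-1 : ZMod (2 * g + 3)) ^ (g + 1)) * (-1) ^ (g + 1) = 1 := by rw [← mul_pow]; simp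
    rw [h5'] at h1' h4'
    rw [show 2 * g + 1 - g = g + 1 by omega, Nat.choose_succ_self_right]
    push_cast at h1' h4' h6 ⊢
    set a : ZMod (2 * g + 3) := (catalan g : ZMod (2 * g + 3))
    set b : ZMod (2 * g + 3) := (catalan (g + 1) : ZMod (2 * g + 3))
    have h8 : (2 * g + 1) * a * b = 1 := by
      have : (2 * (2 * g + 1) * a) * ((g + 1 + 1) * b) = 1 := by rw [← h4', h1', h7]
      linear_combination this - (2 * g + 1) * a * b * h6
    linear_combination (-1) ^ g * h8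
  · intro j hj hjg
    rcases lt_or_gt_of_ne hjg with h | h
    · have h1 := succ_mul_catalan_eq_centralBinom (2 * g + 1 - j)
      have h2 : 2 * g + 3 ∣ centralBinom (2 * g + 1 - j) := by
        rw [centralBinom_eq_two_mul_choose, two_mul (2 * g + 1 - j)]
        exact hp.dvd_choose_add (by omega) (by omega) (by omega)
      rw [← h1] at h2
      have h3 := (hp.dvd_mul.1 h2).resolve_left fun h => by have := Nat.le_of_dvd (by omega) h; omega
      rw [(ZMod.natCast_eq_zero_iff _ _).2 h3, mul_zero]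
    · rw [Nat.choose_eq_zero_of_lt (by omega)]; simp
  · intro h; exact absurd (mem_range.2 (by omega)) h

theorem result : (∀ n : ℕ, 1 ≤ n → ∃ z : ℤ, A n = n * z) ∧
    ∀ p : ℕ, p.Prime → Odd p → ∃ z : ℤ, A p - 2 * p * (-1) ^ ((p + 1) / 2) = p ^ 2 * z := by
  constructor
  · intro n hn
    rcases Nat.eq_or_lt_of_le hn with rfl | h
    · exact ⟨-1, by simp [A, T, S]⟩
    · obtain ⟨m, rfl⟩ : ∃ m, n = m + 2 := ⟨n - 2, by omega⟩
      exact ⟨2 * W m, by rw [A_eq]; push_cast; ring⟩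
  · intro p hp ho
    obtain ⟨g, rfl⟩ : ∃ g, p = 2 * g + 3 := by
      obtain ⟨k, rfl⟩ := ho
      have := hp.two_le
      exact ⟨k - 1, by omega⟩
    have h := W_mod g hp
    have h2 : ((W (2 * g + 1) - (-1) ^ g : ℤ) : ZMod (2 * g + 3)) = 0 := by
      push_cast; rw [h]; ring
    obtain ⟨z, hz⟩ := (ZMod.intCast_zmod_eq_zero_iff_dvd _ _).1 h2
    refine ⟨2 * z, ?_⟩
    have hz' : (W (2 * g + 1) : ℚ) - (-1) ^ g = (2 * g + 3) * z := by exact_mod_cast hz
    rw [show (2 * g + 3 + 1) / 2 = g + 2 by omega, show 2 * g + 3 = 2 * g + 1 + 2 from rfl, A_eq,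
      pow_add]
    push_cast
    linear_combination 2 * (2 * (g : ℚ) + 3) * hz'

end Pool.Agent.Results.MP_e5500d_nt.Yes
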